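import Pool.Agent.H81R2.OSH.Body
import Pool.Agent.H81R2.OSH.Cube
import Pool.Agent.H81R2.OSH.Rec

/-! # Open one-sided Hadwiger numbers (MP_39e5ce_co, Q1)

`HasConf d k` says: some convex body of `ℝ^d` is touched by `k` pairwise non-overlapping
translates lying in one open supporting halfspace; so `n(d)` is the largest `k` with `HasConf d k`.

* `n(2) = 4`;
* a parallelepiped of `ℝ^d` has at most `(3^d - 1)/2` such translates, and the cube attains this. -/

set_option autoImplicit false

namespace Pool.Agent.Results.MP_39e5ce_co.OpenOneSided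

open H81OSH

/-- The cube `[-1,1]^d`. -/
def cube (d : ℕ) : Set (Fin d → ℝ) := {x | ∀ i, |x i| ≤ 1}

theorem cube_one : cube 1 = Set.Icc (fun _ : Fin 1 => (-1 : ℝ)) (fun _ => 1) := by
  ext x
  constructor
  · intro h
    exact ⟨fun i => (abs_le.1 (h i)).1, fun i => (abs_le.1 (h i)).2⟩
  · rintro ⟨h1, h2⟩ i
    exact abs_le.2 ⟨h1 i, h2 i⟩

theorem cube_succ (d : ℕ) : cube (d + 1) = cyl (cube d) := by
  ext x
  constructor
  · intro h
    exact ⟨h 0, fun i => h i.succ⟩
  · rintro ⟨h1, h2⟩ i
    refine Fin.cases h1 (fun j => h2 j) i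

theorem body_one : IsBody (cube 1) := by
  rw [cube_one]
  refine ⟨convex_Icc _ _, isCompact_Icc, ⟨0, ?_⟩⟩
  rw [← Set.pi_univ_Icc, interior_pi_set Set.finite_univ]
  intro i _
  rw [interior_Icc]
  simp

theorem config_one : ∃ T : Finset (Fin 1 → ℝ), Config (cube 1) T ∧ 2 * T.card + 1 = 3 ^ 1 := by
  classical
  rw [cube_one]
  refine ⟨{fun _ => 2}, ?_, by simp⟩
  · have hb : IsBody (Set.Icc (fun _ : Fin 1 => (-1 : ℝ)) (fun _ => 1)) := by
      refine ⟨convex_Icc _ _, isCompact_Icc, ⟨0, ?_⟩⟩
      rw [← Set.pi_univ_Icc, interior_pi_set Set.finite_univ]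
      intro i _
      rw [interior_Icc]
      simp
    have hint : ∀ x : Fin 1 → ℝ, x ∈ interior (Set.Icc (fun _ : Fin 1 => (-1 : ℝ)) (fun _ => 1)) →
        -1 < x 0 ∧ x 0 < 1 := by
      intro x hx
      rw [← Set.pi_univ_Icc, interior_pi_set Set.finite_univ] at hx
      have := hx 0 (Set.mem_univ _)
      rw [interior_Icc] at this
      exact this
    refine ⟨?_, ?_, ?_, ?_⟩
    · intro v hv
      rw [Finset.mem_singleton] at hv
      subst hv
      refine ⟨fun _ => 1, ?_, ?_⟩
      · rw [mem_tr]
        constructor <;> intro i <;> simp <;> norm_num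
      · constructor <;> intro i <;> simp
    · intro v hv
      rw [Finset.mem_singleton] at hv
      subst hv
      rw [Set.disjoint_left]
      intro x h1 h2
      rw [mem_interior_tr] at h1
      have h3 := hint _ h1
      have h4 := hint _ h2
      simp only [Pi.sub_apply] at h3
      linarith [h3.1, h4.2]
    · intro v hv w hw hvw
      rw [Finset.mem_singleton] at hv hw
      exact absurd (hv.trans hw.symm) hvw
    · refine half_of_pos hb (ContinuousLinearMap.proj 0) ?_ ?_
      · intro h
        have := congrArg (fun f : (Fin 1 → ℝ) →L[ℝ] ℝ => f (fun _ => 1)) h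
        simp at this
      · intro v hv
        rw [Finset.mem_singleton] at hv
        subst hv
        simp

theorem body_cube (m : ℕ) : IsBody (cube (m + 1)) := by
  induction m with
  | zero => exact body_one
  | succ m ih =>
    rw [cube_succ]
    exact cyl_body ih

theorem config_cube (m : ℕ) : ∃ T : Finset (Fin (m + 1) → ℝ), Config (cube (m + 1)) T ∧
    2 * T.card + 1 = 3 ^ (m + 1) := by
  induction m with
  | zero => exact config_one
  | succ m ih =>
    obtain ⟨T, hT, hc⟩ := ih
    obtain ⟨T', h1, h2⟩ := config_cyl (body_cube m) hT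
    refine ⟨T', ?_, ?_⟩
    · rw [cube_succ]
      exact h1
    · rw [pow_succ, h2, ← hc]
      ring

/-- MP_39e5ce_co, Q1 (partial): `n(2) = 4`; and in every dimension `d ≥ 1` a parallelepiped has at
most `(3^d - 1)/2` pairwise non-overlapping touching translates in an open supporting halfspace,
with equality for the cube. -/
theorem result :
    IsGreatest {k : ℕ | HasConf 2 k} 4 ∧
    (∀ (d : ℕ) (K : Set (Fin d → ℝ)) (T : Finset (Fin d → ℝ)), IsParallelepiped K → Config K T →
      2 * T.card + 1 ≤ 3 ^ d) ∧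
    (∀ m : ℕ, IsBody (cube (m + 1)) ∧ ∃ T : Finset (Fin (m + 1) → ℝ),
      Config (cube (m + 1)) T ∧ 2 * T.card + 1 = 3 ^ (m + 1)) := by
  refine ⟨⟨?_, ?_⟩, fun d K T hK hT => parallelepiped_le hK hT,
    fun m => ⟨body_cube m, config_cube m⟩⟩
  · obtain ⟨T, hT, hc⟩ := config_cube 1
    refine ⟨cube 2, body_cube 1, T, hT, ?_⟩
    have h9 : (3 : ℕ) ^ (1 + 1) = 9 := by norm_num
    omega
  · rintro k ⟨K, hK, T, hT, rfl⟩
    exact config_plane_le hK hT

end Pool.Agent.Results.MP_39e5ce_co.OpenOneSided
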